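import Mathlib

open Set Filter Topology

namespace Pool.Agent.Results.MP_3a5480_gt.SHD

/-- selectively highly divergent -/
def SHD (X : Type) (t : TopologicalSpace X) : Prop :=
  ∀ U : ℕ → Set X, (∀ n, @IsOpen X t (U n) ∧ (U n).Nonempty) → ∃ x : ℕ → X, (∀ n, x n ∈ U n) ∧
    ¬ ∃ (φ : ℕ → ℕ) (p : X), StrictMono φ ∧ Tendsto (x ∘ φ) atTop (@nhds X t p)

/-- the Pixley-Roy topology on the non-empty finite subsets -/
def PR (X : Type) (t : TopologicalSpace X) :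
    TopologicalSpace {A : Set X // A.Finite ∧ A.Nonempty} :=
  TopologicalSpace.generateFrom {W | ∃ (F : {A : Set X // A.Finite ∧ A.Nonempty}) (V : Set X),
    @IsOpen X t V ∧ F.1 ⊆ V ∧ W = {H | F.1 ⊆ H.1 ∧ H.1 ⊆ V}}

theorem result (X : Type) (t : TopologicalSpace X) (_ : @T1Space X t) (h : SHD X t) :
    SHD _ (PR X t) := by
  have h1 : ∀ W, @IsOpen _ (PR X t) W → ∀ F ∈ W, ∃ V, IsOpen V ∧ F.1 ⊆ V ∧
      ∀ H : {A : Set X // A.Finite ∧ A.Nonempty}, F.1 ⊆ H.1 → H.1 ⊆ V → H ∈ W := fun W hW => by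
    induction hW with
    | basic s hs =>
      obtain ⟨G, V, h1, -, rfl⟩ := hs
      exact fun F hF => ⟨V, h1, hF.2, fun H h2 h3 => ⟨hF.1.trans h2, h3⟩⟩
    | univ => exact fun F _ => ⟨univ, isOpen_univ, subset_univ _, fun _ _ _ => trivial⟩
    | inter s r _ _ i1 i2 =>
      intro F hF
      obtain ⟨V, v1, v2, v3⟩ := i1 F hF.1
      obtain ⟨Z, z1, z2, z3⟩ := i2 F hF.2
      exact ⟨V ∩ Z, v1.inter z1, subset_inter v2 z2, fun H h2 h3 =>
        ⟨v3 H h2 fun x hx => (h3 hx).1, z3 H h2 fun x hx => (h3 hx).2⟩⟩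
    | sUnion S _ ih =>
      rintro F ⟨s, hs, hF⟩
      exact (ih s hs F hF).imp fun V hV => ⟨hV.1, hV.2.1, fun H h2 h3 => ⟨s, hs, hV.2.2 H h2 h3⟩⟩
  have h2 : ∀ H : Set X, H.Finite → ∀ x : ℕ → X, (∀ V, IsOpen V → H ⊆ V → ∀ᶠ n in atTop, x n ∈ V) →
      ∃ (φ : ℕ → ℕ) (p : X), StrictMono φ ∧ Tendsto (x ∘ φ) atTop (𝓝 p) := fun H hH => by
    induction H, hH using Set.Finite.induction_on with
    | empty => exact fun x hx => (hx ∅ isOpen_empty subset_rfl).exists.elim fun _ h => h.elim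
    | @insert a H _ _ ih =>
      intro x hx
      by_cases h3 : Tendsto x atTop (𝓝 a)
      · exact ⟨id, a, strictMono_id, h3⟩
      · rw [tendsto_nhds] at h3
        push Not at h3
        obtain ⟨U, u1, u2, u3⟩ := h3
        obtain ⟨ψ, p1, p2⟩ := extraction_of_frequently_atTop (not_eventually.1 u3)
        obtain ⟨φ, p, p3, p4⟩ := ih (x ∘ ψ) fun V v1 v2 => (p1.tendsto_atTop.eventually
          (hx (U ∪ V) (u1.union v1) (insert_subset (Or.inl u2) fun y hy =>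
            Or.inr (v2 hy)))).mono fun n hn => hn.resolve_left (p2 n)
        exact ⟨ψ ∘ φ, p, p1.comp p3, p4⟩
  intro U hU
  choose F hF using fun n => (hU n).2
  choose V v1 v2 v3 using fun n => h1 _ (hU n).1 _ (hF n)
  obtain ⟨x, x1, x2⟩ := h V fun n => ⟨v1 n, (F n).2.2.mono (v2 n)⟩
  refine ⟨fun n => ⟨insert (x n) (F n).1, (F n).2.1.insert _, insert_nonempty _ _⟩,
    fun n => v3 n _ (subset_insert _ _) (insert_subset (x1 n) (v2 n)), fun ⟨φ, H, p1, p2⟩ => ?_⟩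
  obtain ⟨ψ, p, p3, p4⟩ := h2 H.1 H.2.1 (x ∘ φ) fun Z z1 z2 => mem_of_superset
    (p2 (@IsOpen.mem_nhds _ (PR X t) _ _ (TopologicalSpace.isOpen_generateFrom_of_mem
      ⟨H, Z, z1, z2, rfl⟩) ⟨subset_rfl, z2⟩)) fun n hn => hn.2 (mem_insert _ _)
  exact x2 ⟨φ ∘ ψ, p, p1.comp p3, p4⟩

end Pool.Agent.Results.MP_3a5480_gt.SHD
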